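import Pool.Agent.helper91.HZ.Spec

set_option autoImplicit false

/-!
# Row hz:KCD (MP_2e0e07_nt): the number of matrices of determinant one in the image of the kernel
-/

namespace Pool.Agent.HZ

open Matrix Polynomial Pool.Agent.GO Pool.Agent.AR Pool.Agent.RG MeasureTheory NumberField

theorem KCD : KCD_stmt := by
  intro Γ F F' _ _ _ r n V ρ hd
  classical
  let H : Subgroup Γ := kerV V
  let K : Subgroup H := (adKer ρ).subgroupOf H
  have hidx : K.index = adDegree V ρ := rfl
  have hcard : Nat.card (H ⧸ K) = adDegree V ρ := by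
    rw [← hidx, Subgroup.index_eq_card]
  have : Finite (H ⧸ K) := Nat.finite_of_card_ne_zero (by rw [hcard]; exact hd)
  have : Fintype (H ⧸ K) := Fintype.ofFinite _
  let m : H ⧸ K → Matrix (Fin 2) (Fin 2) F := fun q =>
    if h : ∃ x : H, (x : H ⧸ K) = q ∧ (ρ (x : Γ)).det = 1 then ρ ((Classical.choose h : H) : Γ) else 1
  refine ⟨Finset.univ.image m ∪ Finset.univ.image (fun q => - m q), ?_, ?_⟩
  · have h1 : (Finset.univ.image m).card ≤ adDegree V ρ := by
      rw [← hcard, Nat.card_eq_fintype_card]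
      exact Finset.card_image_le
    have h2 : (Finset.univ.image (fun q => - m q)).card ≤ adDegree V ρ := by
      rw [← hcard, Nat.card_eq_fintype_card]
      exact Finset.card_image_le
    have h3 := Finset.card_union_le (Finset.univ.image m) (Finset.univ.image (fun q => - m q))
    omega
  · intro g hg hdet
    have hgH : g ∈ H := by
      show g ∈ kerV V
      rw [kerV, Subgroup.mem_iInf]
      intro i
      exact hg i
    let x : H := ⟨g, hgH⟩
    have hex : ∃ y : H, (y : H ⧸ K) = (x : H ⧸ K) ∧ (ρ (y : Γ)).det = 1 := ⟨x, rfl, hdet⟩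
    have hm : m (x : H ⧸ K) = ρ ((Classical.choose hex : H) : Γ) := dif_pos hex
    obtain ⟨hy1, hy2⟩ := Classical.choose_spec hex
    set y : H := Classical.choose hex with hy
    have hK : y⁻¹ * x ∈ K := QuotientGroup.eq.1 hy1
    have hK' : ((y⁻¹ * x : H) : Γ) ∈ adKer ρ := Subgroup.mem_subgroupOf.1 hK
    obtain ⟨c, hc⟩ := hK'
    have hρ : ρ g = c • ρ (y : Γ) := by
      have e : g = (y : Γ) * ((y⁻¹ * x : H) : Γ) := by
        rw [Subgroup.coe_mul, Subgroup.coe_inv, mul_inv_cancel_left]
      calc ρ g = ρ ((y : Γ) * ((y⁻¹ * x : H) : Γ)) := by rw [← e]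
        _ = ρ (y : Γ) * (c • (1 : Matrix (Fin 2) (Fin 2) F)) := by rw [map_mul, hc]
        _ = c • ρ (y : Γ) := by rw [Matrix.mul_smul, mul_one]
    have hcc : c ^ 2 = 1 := by
      have h4 := hdet
      rw [hρ, Matrix.det_smul, hy2, mul_one, Fintype.card_fin] at h4
      exact h4
    have hcd : c = 1 ∨ c = -1 := by
      have h6 : (c - 1) * (c + 1) = 0 := by linear_combination hcc
      rcases mul_eq_zero.1 h6 with h7 | h7
      · exact Or.inl (sub_eq_zero.1 h7)
      · exact Or.inr (eq_neg_of_add_eq_zero_left h7)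
    rcases hcd with h5 | h5
    · refine Finset.mem_union_left _ (Finset.mem_image.2 ⟨(x : H ⧸ K), Finset.mem_univ _, ?_⟩)
      rw [hm, hρ, h5, one_smul]
    · refine Finset.mem_union_right _ (Finset.mem_image.2 ⟨(x : H ⧸ K), Finset.mem_univ _, ?_⟩)
      show - m (x : H ⧸ K) = ρ g
      rw [hm, hρ, h5, neg_one_smul]

end Pool.Agent.HZ
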